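import Pool.Agent.TH985.WP.Final

/-!
# The product inequality for determinants of Wishart diagonal blocks

For all block sizes `p i ≥ 1`, all real `α > p - 1`, all positive definite `S` and all real
exponents `ν i ≥ 0`, the diagonal blocks `X_ii` of a Wishart matrix `X ∼ W_p(α, S)` satisfy
`E ∏ |X_ii| ^ ν i ≥ ∏ E |X_ii| ^ ν i`.

Proof idea.  `X = C M Mᵀ Cᵀ` where `C Cᵀ = S` and `M` is a square matrix with density
proportional to `|det M| ^ (α - p)` times the Gaussian density.  Multiplying the blocks
`C_i M` by independent Gaussian matrices `N_i` turns `|X_ii| ^ ν i` into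
`|det (C_i M N_i)| ^ (2 ν i)`.  The law of `(C_i M N_i)_i` has a second representation, in
which one block is `(C_0 Z) M_0ᵀ` and the others are `(C_i Z) N_iᵀ + C_i' M' N_i'`, with `Z` a
Gaussian matrix.  By induction on the number of blocks, for fixed `Z` the blocks can be
separated, and as functions of each column of `Z` the resulting factors are mixtures of
`E |σ ξ + ⟨u, z⟩| ^ q`, so the Gaussian product inequality applies column by column.
-/

set_option autoImplicit false
open MeasureTheory Matrix
open Pool.Agent.TH985.WP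

namespace Pool.Agent.Results.MP_9d9c13_pr.WishartProductInequality

/-- **The product inequality for determinants of Wishart diagonal blocks.** -/
theorem result :
    ∀ (d : ℕ) (p : Fin d → ℕ), (∀ i, 1 ≤ p i) →
    ∀ α : ℝ, ((∑ i, p i : ℕ) : ℝ) - 1 < α →
    ∀ S : Matrix ((i : Fin d) × Fin (p i)) ((i : Fin d) × Fin (p i)) ℝ, S.PosDef →
      IsProbabilityMeasure (wishart α S) ∧
      ∀ ν : Fin d → ℝ, (∀ i, 0 ≤ ν i) →
        (∀ i, Integrable
          (fun x => ((symm x).submatrix (Sigma.mk i) (Sigma.mk i)).det ^ ν i)
          (wishart α S)) ∧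
        Integrable
          (fun x => ∏ i, ((symm x).submatrix (Sigma.mk i) (Sigma.mk i)).det ^ ν i)
          (wishart α S) ∧
        ∏ i, ∫ x, ((symm x).submatrix (Sigma.mk i) (Sigma.mk i)).det ^ ν i
            ∂(wishart α S) ≤
          ∫ x, ∏ i, ((symm x).submatrix (Sigma.mk i) (Sigma.mk i)).det ^ ν i
            ∂(wishart α S) := by
  intro d p hp α hα S hS
  have : ∀ i, Nonempty (Fin (p i)) := fun i => ⟨⟨0, hp i⟩⟩
  refine wishart_prod (I := Fin d) (B := fun i => Fin (p i)) α ?_ S hS
  have h : Fintype.card ((i : Fin d) × Fin (p i)) = ∑ i, p i := by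
    rw [Fintype.card_sigma]
    simp
  rw [h]
  exact hα

end Pool.Agent.Results.MP_9d9c13_pr.WishartProductInequality
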